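import Pool.Agent.MT100.Stmts

/-! Module HYP of MT100: the hypergeometric differential equation. -/

set_option autoImplicit false

open scoped BigOperators

noncomputable section

namespace Pool.Agent.MT100.H94

open Matrix

/-- the entries of `Hyp`, with natural indices -/
def hh (D : Dat) (a l : ℕ) : PowerSeries ℚ :=
  PowerSeries.mk fun k =>
    PowerSeries.coeff l ((PowerSeries.C (k : ℚ) + PowerSeries.X) ^ a * Ak D k)

theorem Hyp_eq (D : Dat) (a l : Fin D.r) : Hyp D a l = hh D a l := rfl

theorem coeff_hh (D : Dat) (a l k : ℕ) : PowerSeries.coeff k (hh D a l) =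
    PowerSeries.coeff l ((PowerSeries.C (k : ℚ) + PowerSeries.X) ^ a * Ak D k) := by
  rw [hh, PowerSeries.coeff_mk]

theorem coeff_X_dv (f : PowerSeries ℚ) (k : ℕ) :
    PowerSeries.coeff k (PowerSeries.X * dv f) = (k : ℚ) * PowerSeries.coeff k f := by
  cases k with
  | zero => simp
  | succ k =>
    rw [PowerSeries.coeff_succ_X_mul, dv, PowerSeries.coeff_derivative]
    push_cast
    ring

/-- `θ h_{a,l} = h_{a+1,l} - h_{a,l-1}` -/
theorem theta_hh (D : Dat) (a l : ℕ) : PowerSeries.X * dv (hh D a l) =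
    hh D (a + 1) l - if l = 0 then 0 else hh D a (l - 1) := by
  ext k
  rw [coeff_X_dv, map_sub, coeff_hh, coeff_hh]
  have e : (PowerSeries.C (k : ℚ) + PowerSeries.X) ^ (a + 1) * Ak D k =
      PowerSeries.C (k : ℚ) * ((PowerSeries.C (k : ℚ) + PowerSeries.X) ^ a * Ak D k) +
        PowerSeries.X * ((PowerSeries.C (k : ℚ) + PowerSeries.X) ^ a * Ak D k) := by ring
  rw [e, map_add, PowerSeries.coeff_C_mul]
  cases l with
  | zero => simp
  | succ l =>
    rw [PowerSeries.coeff_succ_X_mul, if_neg (Nat.succ_ne_zero l), Nat.add_sub_cancel, coeff_hh]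
    ring

/-- the recursion of the `A_k` -/
theorem Ak_succ (D : Dat) (k : ℕ) :
    (PowerSeries.C ((k + 1 : ℕ) : ℚ) + PowerSeries.X) ^ D.r * Ak D (k + 1) =
      PowerSeries.C D.lam * ((cf D).eval₂ (PowerSeries.C) (PowerSeries.C (k : ℚ) + PowerSeries.X)) *
        Ak D k := by
  have hu : (PowerSeries.C ((k : ℚ) + 1) + PowerSeries.X : PowerSeries ℚ) *
      (PowerSeries.C ((k : ℚ) + 1) + PowerSeries.X)⁻¹ = 1 := by
    apply PowerSeries.mul_inv_cancel
    rw [map_add, PowerSeries.constantCoeff_C, PowerSeries.constantCoeff_X, add_zero]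
    positivity
  have hcf : (cf D).eval₂ (PowerSeries.C) (PowerSeries.C (k : ℚ) + PowerSeries.X) =
      ∏ i : Fin D.s, ((PowerSeries.C ((k : ℚ) + D.al i) + PowerSeries.X) *
        (PowerSeries.C ((k : ℚ) + (1 - D.al i)) + PowerSeries.X)) := by
    rw [cf, Polynomial.eval₂_finsetProd]
    apply Finset.prod_congr rfl
    intro i _
    rw [Polynomial.eval₂_mul, Polynomial.eval₂_add, Polynomial.eval₂_add, Polynomial.eval₂_X,
      Polynomial.eval₂_C, Polynomial.eval₂_C, map_add, map_add]
    ring
  rw [Ak, Finset.prod_range_succ, ← Ak, hcf]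
  have h1 : ∏ i : Fin D.s, ((PowerSeries.C ((k : ℚ) + D.al i) + PowerSeries.X) *
      (PowerSeries.C ((k : ℚ) + (1 - D.al i)) + PowerSeries.X) *
      ((PowerSeries.C ((k : ℚ) + 1) + PowerSeries.X)⁻¹) ^ 2) =
      (∏ i : Fin D.s, ((PowerSeries.C ((k : ℚ) + D.al i) + PowerSeries.X) *
      (PowerSeries.C ((k : ℚ) + (1 - D.al i)) + PowerSeries.X))) *
      ((PowerSeries.C ((k : ℚ) + 1) + PowerSeries.X)⁻¹) ^ D.r := by
    rw [Finset.prod_mul_distrib, Finset.prod_const, Finset.card_univ, Fintype.card_fin, ← pow_mul]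
  rw [h1]
  have h2 : (PowerSeries.C ((k + 1 : ℕ) : ℚ) + PowerSeries.X : PowerSeries ℚ) =
      PowerSeries.C ((k : ℚ) + 1) + PowerSeries.X := by
    push_cast
    rfl
  rw [h2]
  have h3 : (PowerSeries.C ((k : ℚ) + 1) + PowerSeries.X : PowerSeries ℚ) ^ D.r *
      ((PowerSeries.C ((k : ℚ) + 1) + PowerSeries.X)⁻¹) ^ D.r = 1 := by
    rw [← mul_pow, hu, one_pow]
  set P := ∏ i : Fin D.s, ((PowerSeries.C ((k : ℚ) + D.al i) + PowerSeries.X) *
      (PowerSeries.C ((k : ℚ) + (1 - D.al i)) + PowerSeries.X)) with hP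
  set U := (PowerSeries.C ((k : ℚ) + 1) + PowerSeries.X : PowerSeries ℚ) ^ D.r with hU
  set V := ((PowerSeries.C ((k : ℚ) + 1) + PowerSeries.X : PowerSeries ℚ)⁻¹) ^ D.r with hV
  calc U * (Ak D k * (PowerSeries.C D.lam * (P * V))) = PowerSeries.C D.lam * P * Ak D k * (U * V) := by
        ring
    _ = PowerSeries.C D.lam * P * Ak D k := by rw [h3, mul_one]

theorem cf_monic (D : Dat) : (cf D).Monic ∧ (cf D).natDegree = D.r := by
  have h1 : ∀ i : Fin D.s, ((Polynomial.X + Polynomial.C (D.al i)) *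
      (Polynomial.X + Polynomial.C (1 - D.al i))).Monic := fun i =>
    (Polynomial.monic_X_add_C _).mul (Polynomial.monic_X_add_C _)
  refine ⟨Polynomial.monic_prod_of_monic _ _ fun i _ => h1 i, ?_⟩
  rw [cf, Polynomial.natDegree_prod_of_monic _ _ fun i _ => h1 i]
  have h2 : ∀ i : Fin D.s, ((Polynomial.X + Polynomial.C (D.al i)) *
      (Polynomial.X + Polynomial.C (1 - D.al i))).natDegree = 2 := by
    intro i
    rw [(Polynomial.monic_X_add_C _).natDegree_mul (Polynomial.monic_X_add_C _),
      Polynomial.natDegree_X_add_C, Polynomial.natDegree_X_add_C]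
  rw [Finset.sum_congr rfl fun i _ => h2 i, Finset.sum_const, Finset.card_univ, Fintype.card_fin,
    smul_eq_mul, mul_comm]

theorem eval₂_cf (D : Dat) (x : PowerSeries ℚ) : (cf D).eval₂ (PowerSeries.C) x =
    x ^ D.r + ∑ b ∈ Finset.range D.r, PowerSeries.C ((cf D).coeff b) * x ^ b := by
  obtain ⟨h1, h2⟩ := cf_monic D
  rw [Polynomial.eval₂_eq_sum_range, h2, Finset.sum_range_succ, add_comm]
  congr 1
  have h3 : (cf D).coeff D.r = 1 := by
    have := h1.coeff_natDegree
    rwa [h2] at this
  rw [h3, map_one, one_mul]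

/-- the hypergeometric equation -/
theorem top_hh (D : Dat) (l : ℕ) (hl : l < D.r) :
    (((1 - Polynomial.C D.lam * Polynomial.X : Polynomial ℚ) : PowerSeries ℚ)) * hh D D.r l =
      PowerSeries.C D.lam * PowerSeries.X *
        ∑ b ∈ Finset.range D.r, PowerSeries.C ((cf D).coeff b) * hh D b l := by
  have hc : (((1 - Polynomial.C D.lam * Polynomial.X : Polynomial ℚ) : PowerSeries ℚ)) =
      1 - PowerSeries.C D.lam * PowerSeries.X := by
    rw [Polynomial.coe_sub, Polynomial.coe_one, Polynomial.coe_mul, Polynomial.coe_C,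
      Polynomial.coe_X]
  rw [hc]
  ext k
  have e1 : (1 - PowerSeries.C D.lam * PowerSeries.X) * hh D D.r l =
      hh D D.r l - PowerSeries.C D.lam * (PowerSeries.X * hh D D.r l) := by ring
  have e2 : PowerSeries.C D.lam * PowerSeries.X *
        ∑ b ∈ Finset.range D.r, PowerSeries.C ((cf D).coeff b) * hh D b l =
      PowerSeries.C D.lam * (PowerSeries.X *
        ∑ b ∈ Finset.range D.r, PowerSeries.C ((cf D).coeff b) * hh D b l) := by ring
  rw [e1, e2, map_sub, PowerSeries.coeff_C_mul, PowerSeries.coeff_C_mul]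
  cases k with
  | zero =>
    rw [coeff_hh, PowerSeries.coeff_zero_X_mul, PowerSeries.coeff_zero_X_mul, mul_zero, sub_zero]
    rw [Ak, Finset.range_zero, Finset.prod_empty, mul_one, Nat.cast_zero, map_zero, zero_add,
      PowerSeries.coeff_X_pow, if_neg hl.ne]
  | succ k =>
    rw [PowerSeries.coeff_succ_X_mul, PowerSeries.coeff_succ_X_mul, coeff_hh, Ak_succ, eval₂_cf,
      coeff_hh, map_sum]
    have e3 : PowerSeries.C D.lam * ((PowerSeries.C (k : ℚ) + PowerSeries.X) ^ D.r +
        ∑ b ∈ Finset.range D.r, PowerSeries.C ((cf D).coeff b) *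
          (PowerSeries.C (k : ℚ) + PowerSeries.X) ^ b) * Ak D k =
        PowerSeries.C D.lam * ((PowerSeries.C (k : ℚ) + PowerSeries.X) ^ D.r * Ak D k) +
        PowerSeries.C D.lam * ∑ b ∈ Finset.range D.r, PowerSeries.C ((cf D).coeff b) *
          ((PowerSeries.C (k : ℚ) + PowerSeries.X) ^ b * Ak D k) := by
      rw [mul_add, add_mul, mul_assoc, mul_assoc, Finset.sum_mul]
      congr 2
      exact Finset.sum_congr rfl fun b _ => mul_assoc _ _ _
    rw [e3, map_add, PowerSeries.coeff_C_mul, PowerSeries.coeff_C_mul, add_sub_cancel_left, map_sum]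
    congr 1
    apply Finset.sum_congr rfl
    intro b _
    rw [PowerSeries.coeff_C_mul, PowerSeries.coeff_C_mul, coeff_hh]

theorem hyp : HypStmt := by
  intro D
  constructor
  · intro i j
    rw [Hyp_eq, ← PowerSeries.coeff_zero_eq_constantCoeff_apply, coeff_hh, Ak, Finset.range_zero,
      Finset.prod_empty, mul_one, Nat.cast_zero, map_zero, zero_add, PowerSeries.coeff_X_pow]
    by_cases h : i = j
    · rw [if_pos h, if_pos (by rw [h])]
    · rw [if_neg h, if_neg (fun h' => h (Fin.ext h'.symm))]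
  · apply Matrix.ext
    intro a l
    have hN : (Hyp D * (Nsh D.r).map (fun x => (x : PowerSeries ℚ))) a l =
        if (l : ℕ) = 0 then 0 else hh D a (l - 1) := by
      rw [Matrix.mul_apply]
      by_cases h : (l : ℕ) = 0
      · rw [if_pos h]
        apply Finset.sum_eq_zero
        intro j _
        rw [Matrix.map_apply, Nsh, if_neg (by omega), Int.cast_zero, mul_zero]
      · rw [if_neg h]
        have hl : (l : ℕ) - 1 < D.r := by omega
        rw [Finset.sum_eq_single ⟨(l : ℕ) - 1, hl⟩]
        · rw [Matrix.map_apply, Nsh, if_pos (by simp only []; omega), Int.cast_one, mul_one, Hyp_eq]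
        · intro j _ hj
          rw [Matrix.map_apply, Nsh, if_neg, Int.cast_zero, mul_zero]
          intro h'
          apply hj
          apply Fin.ext
          simp only []
          omega
        · intro h'
          exact absurd (Finset.mem_univ _) h'
    set q : PowerSeries ℚ := ((1 - Polynomial.C D.lam * Polynomial.X : Polynomial ℚ) : PowerSeries ℚ)
      with hq
    have hA : ((A0 D).map (fun p => (p : PowerSeries ℚ)) * Hyp D) a l = q * hh D (a + 1) l := by
      rw [Matrix.mul_apply]
      by_cases ha : (a : ℕ) + 1 = D.r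
      · rw [ha, hq, top_hh D l l.2, Finset.mul_sum, ← Fin.sum_univ_eq_sum_range
          (fun b => PowerSeries.C D.lam * PowerSeries.X * (PowerSeries.C ((cf D).coeff b) * hh D b l))
          D.r]
        apply Finset.sum_congr rfl
        intro b _
        rw [Matrix.map_apply, A0, if_neg (by have := b.2; omega), if_pos ha, zero_add,
          Polynomial.coe_mul, Polynomial.coe_C, Polynomial.coe_X, Hyp_eq, map_mul]
        ring
      · have ha' : (a : ℕ) + 1 < D.r := by have := a.2; omega
        rw [Finset.sum_eq_single ⟨(a : ℕ) + 1, ha'⟩]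
        · rw [Matrix.map_apply, A0, if_pos rfl, if_neg ha, add_zero, Hyp_eq]
        · intro b _ hb
          rw [Matrix.map_apply, A0, if_neg, if_neg ha, add_zero, Polynomial.coe_zero, zero_mul]
          intro h'
          apply hb
          exact Fin.ext h'.symm
        · intro h'
          exact absurd (Finset.mem_univ _) h'
    rw [Matrix.sub_apply, Matrix.smul_apply, Matrix.smul_apply, hN, hA, Matrix.map_apply,
      smul_eq_mul, smul_eq_mul, Hyp_eq, mul_assoc, theta_hh]
    ring

end Pool.Agent.MT100.H94
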