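import Pool.Agent.MT100.Stmts

/-! Closure properties of the class `MerG` of germs at `0+` (quotients of real analytic functions by
powers of `u`). -/

set_option autoImplicit false

open Filter Topology Set

namespace Pool.Agent.MT100.H94

theorem merG_analytic {g : ℝ → ℝ} (hg : AnalyticAt ℝ g 0) : MerG g :=
  ⟨0, g, hg, Eventually.of_forall fun u => by rw [pow_zero, one_mul]⟩

theorem merG_const (c : ℝ) : MerG fun _ => c := merG_analytic analyticAt_const

theorem merG_congr {f g : ℝ → ℝ} (h : ∀ᶠ u in 𝓝[>] (0 : ℝ), f u = g u) (hf : MerG f) : MerG g := by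
  obtain ⟨k, F, hF, h1⟩ := hf
  refine ⟨k, F, hF, ?_⟩
  filter_upwards [h, h1] with u h2 h3
  rw [← h2, h3]

theorem merG_add {f g : ℝ → ℝ} (hf : MerG f) (hg : MerG g) : MerG fun u => f u + g u := by
  obtain ⟨k, F, hF, h1⟩ := hf
  obtain ⟨m, G, hG, h2⟩ := hg
  refine ⟨k + m, fun u => u ^ m * F u + u ^ k * G u,
    ((analyticAt_id.pow m).mul hF).add ((analyticAt_id.pow k).mul hG), ?_⟩
  filter_upwards [h1, h2] with u h3 h4
  rw [← h3, ← h4, pow_add]
  ring

theorem merG_mul {f g : ℝ → ℝ} (hf : MerG f) (hg : MerG g) : MerG fun u => f u * g u := by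
  obtain ⟨k, F, hF, h1⟩ := hf
  obtain ⟨m, G, hG, h2⟩ := hg
  refine ⟨k + m, fun u => F u * G u, hF.mul hG, ?_⟩
  filter_upwards [h1, h2] with u h3 h4
  rw [← h3, ← h4, pow_add]
  ring

theorem merG_neg {f : ℝ → ℝ} (hf : MerG f) : MerG fun u => -f u := by
  have := merG_mul (merG_const (-1)) hf
  refine merG_congr (Eventually.of_forall fun u => ?_) this
  change -1 * f u = -f u
  ring

theorem merG_sub {f g : ℝ → ℝ} (hf : MerG f) (hg : MerG g) : MerG fun u => f u - g u := by
  have := merG_add hf (merG_neg hg)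
  refine merG_congr (Eventually.of_forall fun u => ?_) this
  change f u + -g u = f u - g u
  ring

theorem merG_sum {ι : Type*} (s : Finset ι) (f : ι → ℝ → ℝ) (h : ∀ i ∈ s, MerG (f i)) :
    MerG fun u => ∑ i ∈ s, f i u := by
  classical
  induction s using Finset.induction_on with
  | empty => exact merG_congr (Eventually.of_forall fun u => by rw [Finset.sum_empty]) (merG_const 0)
  | insert i s his ih =>
    have h1 := merG_add (h i (Finset.mem_insert_self i s))
      (ih fun j hj => h j (Finset.mem_insert_of_mem hj))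
    refine merG_congr (Eventually.of_forall fun u => ?_) h1
    rw [Finset.sum_insert his]

/-- a bounded germ in the class is analytic -/
theorem merG_bounded {f : ℝ → ℝ} (hf : MerG f) {B : ℝ} (hB : ∀ᶠ u in 𝓝[>] (0 : ℝ), |f u| ≤ B) :
    ∃ g : ℝ → ℝ, AnalyticAt ℝ g 0 ∧ ∀ᶠ u in 𝓝[>] (0 : ℝ), f u = g u := by
  obtain ⟨k, F, hF, h1⟩ := hf
  induction k generalizing F with
  | zero =>
    refine ⟨F, hF, ?_⟩
    filter_upwards [h1] with u h2
    rwa [pow_zero, one_mul] at h2
  | succ k ih =>
    -- `F 0 = 0`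
    have hF0 : F 0 = 0 := by
      have h3 : Tendsto F (𝓝[>] (0 : ℝ)) (𝓝 (F 0)) :=
        hF.continuousAt.tendsto.mono_left nhdsWithin_le_nhds
      have h4 : Tendsto F (𝓝[>] (0 : ℝ)) (𝓝 0) := by
        have h5 : Tendsto (fun u : ℝ => u ^ (k + 1) * B) (𝓝[>] (0 : ℝ)) (𝓝 0) := by
          have : Tendsto (fun u : ℝ => u ^ (k + 1) * B) (𝓝 (0 : ℝ)) (𝓝 (0 ^ (k + 1) * B)) :=
            ((continuous_id.pow (k + 1)).mul continuous_const).tendsto 0
          rw [zero_pow (Nat.succ_ne_zero k), zero_mul] at this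
          exact this.mono_left nhdsWithin_le_nhds
        apply squeeze_zero_norm' _ h5
        filter_upwards [h1, hB, self_mem_nhdsWithin] with u h6 h7 h8
        have h9 : (0 : ℝ) < u := h8
        rw [← h6, Real.norm_eq_abs, abs_mul, abs_of_nonneg (pow_nonneg h9.le _)]
        exact mul_le_mul_of_nonneg_left h7 (pow_nonneg h9.le _)
      exact tendsto_nhds_unique h3 h4
    obtain ⟨p, hp⟩ := hF
    have hd : AnalyticAt ℝ (dslope F 0) 0 := ⟨_, hp.has_fpower_series_dslope_fslope⟩
    apply ih (dslope F 0) hd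
    filter_upwards [h1, self_mem_nhdsWithin] with u h2 h3
    have h4 : (0 : ℝ) < u := h3
    have h5 : F u = u * dslope F 0 u := by
      have := sub_smul_dslope F 0 u
      rw [sub_zero, hF0, sub_zero, smul_eq_mul] at this
      exact this.symm
    rw [h5, pow_succ] at h2
    have h6 : u * (u ^ k * f u) = u * dslope F 0 u := by
      rw [← h2]
      ring
    exact mul_left_cancel₀ h4.ne' h6

end Pool.Agent.MT100.H94
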