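import Pool.Agent.Helper94_MT100.Hyp
import Pool.Agent.Helper94_MT100.Mer

/-! Module CYC of MT100: the vanishing vector at the conifold point is cyclic. -/

set_option autoImplicit false

open Filter Topology Set Matrix
open scoped BigOperators

noncomputable section

namespace Pool.Agent.MT100.H94

/-! ### The first column -/

/-- the first column of `W` is holomorphic in `z` -/
theorem W_col (D : Dat) (w : ℝ) (a : Fin D.r) : W D w a D.fz = ev (Hyp D a D.fz) w⁻¹ := by
  rw [W, Matrix.mul_apply, Finset.sum_eq_single D.fz]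
  · rw [Matrix.map_apply, en, if_pos le_rfl]
    simp
  · intro l _ hl
    have h1 : ¬ l ≤ D.fz := by
      intro h
      apply hl
      apply Fin.ext
      have h2 : (l : ℕ) ≤ (D.fz : Fin D.r) := h
      have h3 : ((D.fz : Fin D.r) : ℕ) = 0 := rfl
      omega
    rw [en, if_neg h1, mul_zero]
  · intro h
    exact absurd (Finset.mem_univ _) h

/-- the coefficients of the holomorphic solution -/
def h0 (D : Dat) (k : ℕ) : ℚ := PowerSeries.coeff k (Hyp D D.fz D.fz)

theorem h0_nonneg (hhg : Hg0Stmt) (D : Dat) (k : ℕ) : 0 ≤ h0 D k := by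
  obtain ⟨_, _, c, hc, h3⟩ := hhg D
  rcases Nat.eq_zero_or_pos k with rfl | hk
  · have h1 := (hyp D).1 D.fz D.fz
    rw [if_pos rfl, ← PowerSeries.coeff_zero_eq_constantCoeff_apply] at h1
    rw [h0, h1]
    exact zero_le_one
  · have h4 := h3 k hk
    have h5 : 0 < c * D.lam ^ k := mul_pos hc (pow_pos D.lam_pos k)
    have h6 : 0 < h0 D k * (k : ℚ) ^ D.s := lt_of_lt_of_le h5 h4
    have h7 : (0 : ℚ) < (k : ℚ) ^ D.s := by positivity
    exact (pos_of_mul_pos_left h6 h7.le).le

theorem h0_le (hhg : Hg0Stmt) (D : Dat) (k : ℕ) :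
    ((h0 D k : ℚ) : ℝ) * (2 * (k : ℝ) + 1) ^ D.s ≤ (D.lam : ℝ) ^ k := by
  have h1 := (hhg D).2.1 k
  exact_mod_cast h1

theorem lam_pos' (D : Dat) : (0 : ℝ) < D.lam := by exact_mod_cast D.lam_pos

/-- `W_00` is bounded -/
theorem W00_bounded (hhg : Hg0Stmt) (D : Dat) :
    ∃ B : ℝ, ∀ w : ℝ, (D.lam : ℝ) < w → |W D w D.fz D.fz| ≤ B := by
  have hs : Summable fun k : ℕ => 1 / ((k : ℝ) + 1) ^ 2 := by
    have h1 := (summable_nat_add_iff 1).2 (Real.summable_one_div_nat_pow.2 (one_lt_two))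
    refine h1.congr fun k => ?_
    push_cast
    rfl
  refine ⟨∑' k : ℕ, 1 / ((k : ℝ) + 1) ^ 2, fun w hw => ?_⟩
  rw [W_col, ev]
  have hw0 : 0 < w := lt_trans (lam_pos' D) hw
  have hterm : ∀ k : ℕ, ‖((PowerSeries.coeff k (Hyp D D.fz D.fz) : ℚ) : ℝ) * w⁻¹ ^ k‖ ≤
      1 / ((k : ℝ) + 1) ^ 2 := by
    intro k
    have h1 : (0 : ℝ) ≤ ((h0 D k : ℚ) : ℝ) := by exact_mod_cast h0_nonneg hhg D k
    have h2 := h0_le hhg D k
    have h3 : (0 : ℝ) ≤ w⁻¹ ^ k := pow_nonneg (inv_nonneg.2 hw0.le) k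
    change ‖((h0 D k : ℚ) : ℝ) * w⁻¹ ^ k‖ ≤ _
    rw [Real.norm_eq_abs, abs_of_nonneg (mul_nonneg h1 h3)]
    have h4 : ((k : ℝ) + 1) ^ 2 ≤ (2 * (k : ℝ) + 1) ^ D.s := by
      have hk : (0 : ℝ) ≤ k := Nat.cast_nonneg k
      calc ((k : ℝ) + 1) ^ 2 ≤ (2 * (k : ℝ) + 1) ^ 2 := by
            apply pow_le_pow_left₀ (by positivity)
            linarith
        _ ≤ (2 * (k : ℝ) + 1) ^ D.s := by
            apply pow_le_pow_right₀ _ D.two_le
            linarith
    have h5 : (0 : ℝ) < ((k : ℝ) + 1) ^ 2 := by positivity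
    rw [le_div_iff₀ h5]
    calc ((h0 D k : ℚ) : ℝ) * w⁻¹ ^ k * ((k : ℝ) + 1) ^ 2
        ≤ ((h0 D k : ℚ) : ℝ) * w⁻¹ ^ k * (2 * (k : ℝ) + 1) ^ D.s :=
          mul_le_mul_of_nonneg_left h4 (mul_nonneg h1 h3)
      _ = (((h0 D k : ℚ) : ℝ) * (2 * (k : ℝ) + 1) ^ D.s) * w⁻¹ ^ k := by ring
      _ ≤ (D.lam : ℝ) ^ k * w⁻¹ ^ k := mul_le_mul_of_nonneg_right h2 h3
      _ = ((D.lam : ℝ) * w⁻¹) ^ k := (mul_pow _ _ _).symm
      _ ≤ 1 := by
          apply pow_le_one₀ (mul_nonneg (lam_pos' D).le (inv_nonneg.2 hw0.le))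
          rw [← div_eq_mul_inv, div_le_one hw0]
          exact hw.le
  exact tsum_of_norm_bounded hs.hasSum hterm

/-- the differential equation for the rows -/
theorem W_deriv (hana : AnaStmt) (D : Dat) (a : Fin D.r) (ha : (a : ℕ) + 1 < D.r) (i : Fin D.r)
    {u : ℝ} (hu : 0 < u) : HasDerivAt (fun x => W D (D.lam + x) a i)
      (-((D.lam + u)⁻¹ * W D (D.lam + u) ⟨(a : ℕ) + 1, ha⟩ i)) u := by
  have hw : (D.lam : ℝ) < D.lam + u := by linarith
  have hw0 : (0 : ℝ) < D.lam + u := lt_trans (lam_pos' D) hw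
  obtain ⟨_, _, _, h4⟩ := hana D (D.lam + u) hw
  have h5 := h4 a i
  have h6 : (((A0 D).map (fun p => (p.map (algebraMap ℚ ℝ)).eval ((D.lam : ℝ) + u)⁻¹)) *
      W D (D.lam + u)) a i = (1 - (D.lam : ℝ) * (D.lam + u)⁻¹) *
        W D (D.lam + u) ⟨(a : ℕ) + 1, ha⟩ i := by
    rw [Matrix.mul_apply, Finset.sum_eq_single ⟨(a : ℕ) + 1, ha⟩]
    · rw [Matrix.map_apply, A0, if_pos rfl, if_neg ha.ne, add_zero]
      simp
    · intro b _ hb
      rw [Matrix.map_apply, A0, if_neg, if_neg ha.ne, add_zero]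
      · simp
      · intro h'
        apply hb
        exact Fin.ext h'.symm
    · intro h'
      exact absurd (Finset.mem_univ _) h'
  rw [h6] at h5
  have h7 : HasDerivAt (fun x : ℝ => (D.lam : ℝ) + x) 1 u := by
    simpa using (hasDerivAt_id u).const_add (D.lam : ℝ)
  have h8 := h5.comp u h7
  have h9 : -(((D.lam : ℝ) + u - D.lam)⁻¹ * ((1 - (D.lam : ℝ) * (D.lam + u)⁻¹) *
      W D (D.lam + u) ⟨(a : ℕ) + 1, ha⟩ i)) * 1 =
      -((D.lam + u)⁻¹ * W D (D.lam + u) ⟨(a : ℕ) + 1, ha⟩ i) := by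
    have h10 : ((D.lam : ℝ) + u - D.lam)⁻¹ * (1 - (D.lam : ℝ) * (D.lam + u)⁻¹) =
        (D.lam + u)⁻¹ := by
      have e1 : (D.lam : ℝ) + u - D.lam = u := by ring
      have e2 : u ≠ 0 := hu.ne'
      rw [e1]
      field_simp
      ring
    rw [mul_one, ← mul_assoc, h10]
  rw [h9] at h8
  exact h8

/-- analyticity at the conifold point passes to the next row -/
theorem boot (hana : AnaStmt) (D : Dat) (a : Fin D.r) (ha : (a : ℕ) + 1 < D.r) (i : Fin D.r)
    {g : ℝ → ℝ} (hg : AnalyticAt ℝ g 0) (h : ∀ᶠ u in 𝓝[>] (0 : ℝ), W D (D.lam + u) a i = g u) :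
    ∃ g' : ℝ → ℝ, AnalyticAt ℝ g' 0 ∧
      ∀ᶠ u in 𝓝[>] (0 : ℝ), W D (D.lam + u) ⟨(a : ℕ) + 1, ha⟩ i = g' u := by
  refine ⟨fun u => -((D.lam + u) * deriv g u),
    ((analyticAt_const.add analyticAt_id).mul hg.deriv).neg, ?_⟩
  have h1 : ∀ᶠ u in 𝓝[>] (0 : ℝ), ∀ᶠ x in 𝓝[>] u, W D (D.lam + x) a i = g x := by
    have := (eventually_eventually_nhdsWithin (s := Ioi (0 : ℝ)) (a := (0 : ℝ))
      (p := fun x => W D (D.lam + x) a i = g x)).2 h
    filter_upwards [this, self_mem_nhdsWithin] with u h2 h3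
    exact h2.filter_mono (nhdsWithin_mono _ (Ioi_subset_Ioi (le_of_lt h3)))
  have h1' : ∀ᶠ u in 𝓝[>] (0 : ℝ), ∀ᶠ x in 𝓝 u, W D (D.lam + x) a i = g x := by
    have := (eventually_eventually_nhdsWithin (s := Ioi (0 : ℝ)) (a := (0 : ℝ))
      (p := fun x => W D (D.lam + x) a i = g x)).2 h
    filter_upwards [this, self_mem_nhdsWithin] with u h2 h3
    rwa [isOpen_Ioi.nhdsWithin_eq h3] at h2
  filter_upwards [h1', self_mem_nhdsWithin] with u h2 h3
  have hu : (0 : ℝ) < u := h3
  have hw0 : (0 : ℝ) < D.lam + u := by have := lam_pos' D; linarith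
  have h4 := W_deriv hana D a ha i hu
  have h5 : deriv g u = -((D.lam + u)⁻¹ * W D (D.lam + u) ⟨(a : ℕ) + 1, ha⟩ i) := by
    have h6 : (fun x => W D (D.lam + x) a i) =ᶠ[𝓝 u] g := h2
    exact (h4.congr_of_eventuallyEq h6.symm).deriv
  rw [h5]
  field_simp

/-- the row `s` of the first column is unbounded at the conifold point -/
theorem unbounded (hhg : Hg0Stmt) (D : Dat) (a : Fin D.r) (ha : (a : ℕ) = D.s) {g : ℝ → ℝ}
    (hg : ContinuousAt g 0) (h : ∀ᶠ u in 𝓝[>] (0 : ℝ), W D (D.lam + u) a D.fz = g u) : False := by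
  obtain ⟨h1, _, c, hc, h3⟩ := hhg D
  have hc' : (0 : ℝ) < c := by exact_mod_cast hc
  have hlam := lam_pos' D
  -- lower bound by the partial sums
  have key : ∀ K : ℕ, (c : ℝ) * K ≤ g 0 := by
    intro K
    have t1 : Tendsto (fun u : ℝ => ∑ k ∈ Finset.range K,
        (c : ℝ) * ((D.lam : ℝ) * (D.lam + u)⁻¹) ^ (k + 1)) (𝓝[>] (0 : ℝ)) (𝓝 ((c : ℝ) * K)) := by
      have t2 : ContinuousAt (fun u : ℝ => ∑ k ∈ Finset.range K,
          (c : ℝ) * ((D.lam : ℝ) * (D.lam + u)⁻¹) ^ (k + 1)) 0 := by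
        apply tendsto_finsetSum
        intro k _
        apply ContinuousAt.mul continuousAt_const
        apply ContinuousAt.pow
        apply ContinuousAt.mul continuousAt_const
        apply ContinuousAt.inv₀ (by fun_prop)
        rw [add_zero]
        exact hlam.ne'
      have t3 : ∑ k ∈ Finset.range K,
          (c : ℝ) * ((D.lam : ℝ) * ((D.lam : ℝ) + 0)⁻¹) ^ (k + 1) = (c : ℝ) * K := by
        rw [add_zero, mul_inv_cancel₀ hlam.ne']
        simp only [one_pow, mul_one, Finset.sum_const, Finset.card_range, nsmul_eq_mul]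
        ring
      have t4 := t2.tendsto.mono_left (nhdsWithin_le_nhds (s := Ioi (0 : ℝ)))
      rwa [t3] at t4
    have t5 : Tendsto g (𝓝[>] (0 : ℝ)) (𝓝 (g 0)) := hg.tendsto.mono_left nhdsWithin_le_nhds
    apply le_of_tendsto_of_tendsto t1 t5
    filter_upwards [h, self_mem_nhdsWithin] with u h4 h5
    have hu : (0 : ℝ) < u := h5
    have hw0 : (0 : ℝ) < D.lam + u := by linarith
    rw [← h4, W_col, ev]
    set x : ℝ := (D.lam + u)⁻¹ with hx
    have hx0 : 0 < x := inv_pos.2 hw0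
    have hlx : (D.lam : ℝ) * x < 1 := by
      rw [hx, ← div_eq_mul_inv, div_lt_one hw0]
      linarith
    have hlx0 : 0 ≤ (D.lam : ℝ) * x := (mul_pos hlam hx0).le
    have hcoef : ∀ k : ℕ, ((PowerSeries.coeff k (Hyp D a D.fz) : ℚ) : ℝ) =
        (k : ℝ) ^ D.s * ((h0 D k : ℚ) : ℝ) := by
      intro k
      rw [h1 a k, ha]
      push_cast
      rfl
    have hnn : ∀ k : ℕ, 0 ≤ ((PowerSeries.coeff k (Hyp D a D.fz) : ℚ) : ℝ) * x ^ k := by
      intro k
      rw [hcoef]
      have : (0 : ℝ) ≤ ((h0 D k : ℚ) : ℝ) := by exact_mod_cast h0_nonneg hhg D k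
      positivity
    have hsum : Summable fun k : ℕ => ((PowerSeries.coeff k (Hyp D a D.fz) : ℚ) : ℝ) * x ^ k := by
      have h6 : Summable fun k : ℕ => ((k : ℝ) ^ D.s * ((D.lam : ℝ) * x) ^ k : ℝ) :=
        summable_pow_mul_geometric_of_norm_lt_one D.s
          (by rw [Real.norm_eq_abs, abs_of_nonneg hlx0]; exact hlx)
      refine Summable.of_nonneg_of_le hnn (fun k => ?_) h6
      rw [hcoef, mul_pow, mul_assoc]
      apply mul_le_mul_of_nonneg_left _ (by positivity)
      apply mul_le_mul_of_nonneg_right _ (by positivity)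
      have h7 := h0_le hhg D k
      have h8 : (1 : ℝ) ≤ (2 * (k : ℝ) + 1) ^ D.s := by
        apply one_le_pow₀
        have : (0 : ℝ) ≤ k := Nat.cast_nonneg k
        linarith
      have h9 : (0 : ℝ) ≤ ((h0 D k : ℚ) : ℝ) := by exact_mod_cast h0_nonneg hhg D k
      calc ((h0 D k : ℚ) : ℝ) = ((h0 D k : ℚ) : ℝ) * 1 := (mul_one _).symm
        _ ≤ ((h0 D k : ℚ) : ℝ) * (2 * (k : ℝ) + 1) ^ D.s := mul_le_mul_of_nonneg_left h8 h9
        _ ≤ _ := h7
    calc ∑ k ∈ Finset.range K, (c : ℝ) * ((D.lam : ℝ) * x) ^ (k + 1)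
        ≤ ∑ k ∈ Finset.range K,
          ((PowerSeries.coeff (k + 1) (Hyp D a D.fz) : ℚ) : ℝ) * x ^ (k + 1) := by
          apply Finset.sum_le_sum
          intro k _
          rw [hcoef, mul_pow, ← mul_assoc]
          apply mul_le_mul_of_nonneg_right _ (by positivity)
          have h6 := h3 (k + 1) (by omega)
          have h7 : ((c * D.lam ^ (k + 1) : ℚ) : ℝ) ≤
              ((PowerSeries.coeff (k + 1) (Hyp D D.fz D.fz) * ((k + 1 : ℕ) : ℚ) ^ D.s : ℚ) : ℝ) := by
            exact_mod_cast h6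
          push_cast at h7 ⊢
          calc (c : ℝ) * (D.lam : ℝ) ^ (k + 1) ≤ _ := h7
            _ = ((k : ℝ) + 1) ^ D.s * ((h0 D (k + 1) : ℚ) : ℝ) := by rw [h0]; ring
      _ ≤ ∑ k ∈ Finset.range (K + 1),
          ((PowerSeries.coeff k (Hyp D a D.fz) : ℚ) : ℝ) * x ^ k := by
          rw [Finset.sum_range_succ']
          have := hnn 0
          linarith
      _ ≤ ∑' k, ((PowerSeries.coeff k (Hyp D a D.fz) : ℚ) : ℝ) * x ^ k :=
          hsum.sum_le_tsum _ fun k _ => hnn k
  obtain ⟨K, hK⟩ := exists_nat_gt (g 0 / c)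
  have := key K
  rw [div_lt_iff₀ hc'] at hK
  linarith

/-- the first entry is not in the class `MerG` at the conifold point -/
theorem not_merG (hana : AnaStmt) (hhg : Hg0Stmt) (D : Dat)
    (h : MerG fun u => W D (D.lam + u) D.fz D.fz) : False := by
  obtain ⟨B, hB⟩ := W00_bounded hhg D
  obtain ⟨g, hg, hg'⟩ := merG_bounded h (B := B) (by
    filter_upwards [self_mem_nhdsWithin] with u hu
    have hu' : (0 : ℝ) < u := hu
    exact hB _ (by linarith))
  have hs : D.s < D.r := by have := D.two_le; change D.s < 2 * D.s; omega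
  have key : ∀ n : ℕ, ∀ hn : n < D.r, ∃ g : ℝ → ℝ, AnalyticAt ℝ g 0 ∧
      ∀ᶠ u in 𝓝[>] (0 : ℝ), W D (D.lam + u) ⟨n, hn⟩ D.fz = g u := by
    intro n
    induction n with
    | zero => exact fun _ => ⟨g, hg, hg'⟩
    | succ n ih =>
      intro hn
      obtain ⟨g1, h1, h2⟩ := ih (Nat.lt_of_succ_lt hn)
      exact boot hana D ⟨n, Nat.lt_of_succ_lt hn⟩ hn D.fz h1 h2
  obtain ⟨g1, h1, h2⟩ := key D.s hs
  exact unbounded hhg D ⟨D.s, hs⟩ rfl h1.continuousAt h2

/-! ### The matrix `J0` -/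

theorem J0_anti (D : Dat) (a b : Fin D.r) : J0 D.r b a = -J0 D.r a b := by
  unfold J0
  have hr : D.r = 2 * D.s := rfl
  by_cases h : (a : ℕ) + b + 1 = D.r
  · rw [if_pos h, if_pos (by omega)]
    have h1 : (-1 : ℚ) ^ (a : ℕ) * (-1 : ℚ) ^ (b : ℕ) = -1 := by
      rw [← pow_add]
      apply Odd.neg_one_pow
      rw [Nat.odd_iff]
      omega
    rcases neg_one_pow_eq_or ℚ (a : ℕ) with h2 | h2 <;> rw [h2] at h1 ⊢ <;> linarith
  · rw [if_neg h, if_neg (by omega), neg_zero]

/-- the real matrix -/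
def JR (D : Dat) : Matrix (Fin D.r) (Fin D.r) ℝ := (J0 D.r).map (fun x => (x : ℝ))

theorem JR_anti (D : Dat) (a b : Fin D.r) : JR D b a = -JR D a b := by
  change ((J0 D.r b a : ℚ) : ℝ) = -((J0 D.r a b : ℚ) : ℝ)
  rw [J0_anti]
  push_cast
  rfl

/-- the reversed index -/
def rv (D : Dat) (a : Fin D.r) : Fin D.r := ⟨D.r - 1 - a, by have := a.2; omega⟩

theorem JR_mulVec (D : Dat) (v : Fin D.r → ℝ) (a : Fin D.r) :
    (JR D *ᵥ v) a = (-1) ^ (a : ℕ) * v (rv D a) := by
  rw [Matrix.mulVec, dotProduct, Finset.sum_eq_single (rv D a)]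
  · congr 1
    change ((J0 D.r a (rv D a) : ℚ) : ℝ) = _
    unfold J0
    rw [if_pos (by have := a.2; simp only [rv]; omega)]
    push_cast
    rfl
  · intro b _ hb
    have : JR D a b = 0 := by
      change ((J0 D.r a b : ℚ) : ℝ) = 0
      unfold J0
      rw [if_neg, Rat.cast_zero]
      intro h
      apply hb
      apply Fin.ext
      simp only [rv]
      omega
    rw [this, zero_mul]
  · intro h'
    exact absurd (Finset.mem_univ _) h'

theorem JR_quad (D : Dat) (v : Fin D.r → ℝ) : ∑ a, ∑ b, v a * JR D a b * v b = 0 := by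
  have h1 : ∑ a, ∑ b, v a * JR D a b * v b = -∑ a, ∑ b, v a * JR D a b * v b := by
    conv_lhs => rw [Finset.sum_comm]
    rw [← Finset.sum_neg_distrib]
    apply Finset.sum_congr rfl
    intro b _
    rw [← Finset.sum_neg_distrib]
    apply Finset.sum_congr rfl
    intro a _
    rw [JR_anti D b a]
    ring
  linarith

/-- CYC -/
theorem cyc (hana : AnaStmt) (hltl : LtlStmt) (hhg : Hg0Stmt) : CycStmt := by
  intro D v l A hA hV hW
  have hlam := lam_pos' D
  -- the logarithmic term of the first column does not vanish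
  have hnl : ¬ (v = 0 ∨ l D.fz = 0) := by
    intro hvl
    apply not_merG hana hhg D
    refine merG_congr ?_ (hA D.fz D.fz)
    filter_upwards [hW] with u hu
    have h1 := congrFun (congrFun hu D.fz) D.fz
    rw [Matrix.add_apply, Matrix.smul_apply, vecMulVec_apply] at h1
    have h2 : (W D (D.lam + u) *ᵥ v) D.fz * l D.fz = 0 := by
      rcases hvl with h | h
      · rw [h, Matrix.mulVec_zero, Pi.zero_apply, zero_mul]
      · rw [h, mul_zero]
    rw [h2, smul_zero, add_zero] at h1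
    exact h1.symm
  push Not at hnl
  obtain ⟨hv, hl⟩ := hnl
  -- the symmetry
  have hsym : ∀ i j, l i * (-(JR D *ᵥ v) j) + (JR D *ᵥ v) i * l j = 0 := by
    intro i j
    -- the coefficient functions
    let JJ : ℝ → Matrix (Fin D.r) (Fin D.r) ℝ := fun u =>
      (Jm D).map (fun p => (p.map (algebraMap ℚ ℝ)).eval ((D.lam : ℝ) + u)⁻¹)
    have hJJ : ∀ a b, MerG fun u => JJ u a b := by
      intro a b
      apply merG_analytic
      have h1 : AnalyticAt ℝ (fun u : ℝ => ((D.lam : ℝ) + u)⁻¹) 0 :=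
        (analyticAt_const.add analyticAt_id).inv (by simpa using hlam.ne')
      have h2 : ∀ p : Polynomial ℝ, AnalyticAt ℝ (fun u : ℝ => p.eval ((D.lam : ℝ) + u)⁻¹) 0 := by
        intro p
        induction p using Polynomial.induction_on' with
        | add p q hp hq =>
          simp only [Polynomial.eval_add]
          exact hp.add hq
        | monomial n c =>
          simp only [Polynomial.eval_monomial]
          exact analyticAt_const.mul (h1.pow n)
      exact h2 _
    let f : Fin 2 → ℝ → ℝ := ![fun u => (∑ a, ∑ b, A u a i * JJ u a b * A u b j) - JR D i j,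
      fun _ => l i * (-(JR D *ᵥ v) j) + (JR D *ᵥ v) i * l j]
    have hf : ∀ m, MerG (f m) := by
      intro m
      fin_cases m
      · change MerG fun u => (∑ a, ∑ b, A u a i * JJ u a b * A u b j) - JR D i j
        apply merG_sub _ (merG_const _)
        apply merG_sum
        intro a _
        apply merG_sum
        intro b _
        exact merG_mul (merG_mul (hA a i) (hJJ a b)) (hA b j)
      · exact merG_const _
    have hrel : ∀ᶠ u in 𝓝[>] (0 : ℝ), ∑ m, f m u * Real.log u ^ (m : ℕ) = 0 := by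
      filter_upwards [hW, self_mem_nhdsWithin] with u hu hu0
      have hu1 : (0 : ℝ) < u := hu0
      obtain ⟨_, _, h3, _⟩ := hana D (D.lam + u) (by linarith)
      rw [Fin.sum_univ_two]
      change ((∑ a, ∑ b, A u a i * JJ u a b * A u b j) - JR D i j) * Real.log u ^ 0 +
        (l i * (-(JR D *ᵥ v) j) + (JR D *ᵥ v) i * l j) * Real.log u ^ 1 = 0
      rw [pow_zero, mul_one, pow_one]
      set L := Real.log u
      set w := W D (D.lam + u) with hw
      -- `A = w (1 - L v ⊗ l)`
      have hAw : A u = w * (1 - L • vecMulVec v l) := by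
        rw [Matrix.mul_sub, Matrix.mul_one, Matrix.mul_smul]
        have h4 : w * vecMulVec v l = vecMulVec (w *ᵥ v) l := by
          ext a b
          rw [Matrix.mul_apply, vecMulVec_apply, Matrix.mulVec, dotProduct, Finset.sum_mul]
          apply Finset.sum_congr rfl
          intro c _
          rw [vecMulVec_apply, mul_assoc]
        rw [h4]
        have h5 : w = A u + L • vecMulVec (w *ᵥ v) l := hu
        exact eq_sub_of_add_eq h5.symm
      have h6 : ∑ a, ∑ b, A u a i * JJ u a b * A u b j = ((A u)ᵀ * JJ u * A u) i j := by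
        rw [Matrix.mul_apply, Finset.sum_comm]
        apply Finset.sum_congr rfl
        intro b _
        rw [Matrix.mul_apply, Finset.sum_mul]
        rfl
      have h7 : (A u)ᵀ * JJ u * A u =
          (1 - L • vecMulVec v l)ᵀ * JR D * (1 - L • vecMulVec v l) := by
        rw [hAw, Matrix.transpose_mul]
        have h8 : wᵀ * JJ u * w = JR D := h3
        calc (1 - L • vecMulVec v l)ᵀ * wᵀ * JJ u * (w * (1 - L • vecMulVec v l))
            = (1 - L • vecMulVec v l)ᵀ * (wᵀ * JJ u * w) * (1 - L • vecMulVec v l) := by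
              simp only [Matrix.mul_assoc]
          _ = _ := by rw [h8]
      rw [h6, h7]
      -- the entries of the right hand side
      have h9 : ((1 - L • vecMulVec v l)ᵀ * JR D * (1 - L • vecMulVec v l) :
          Matrix (Fin D.r) (Fin D.r) ℝ) i j =
          JR D i j - L * (l i * ∑ a, v a * JR D a j) - L * ((JR D *ᵥ v) i * l j) +
            L ^ 2 * (l i * l j * ∑ a, ∑ b, v a * JR D a b * v b) := by
        have e1 : (1 - L • vecMulVec v l)ᵀ = 1 - L • vecMulVec l v := by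
          rw [Matrix.transpose_sub, Matrix.transpose_one, Matrix.transpose_smul,
            Matrix.transpose_vecMulVec]
        have e2 : vecMulVec l v * JR D = vecMulVec l (v ᵥ* JR D) := by
          ext a b
          rw [Matrix.mul_apply, vecMulVec_apply, Matrix.vecMul, dotProduct, Finset.mul_sum]
          apply Finset.sum_congr rfl
          intro c _
          rw [vecMulVec_apply, mul_assoc]
        have e3 : JR D * vecMulVec v l = vecMulVec (JR D *ᵥ v) l := by
          ext a b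
          rw [Matrix.mul_apply, vecMulVec_apply, Matrix.mulVec, dotProduct, Finset.sum_mul]
          apply Finset.sum_congr rfl
          intro c _
          rw [vecMulVec_apply, mul_assoc]
        have e4 : (vecMulVec l (v ᵥ* JR D) * vecMulVec v l) =
            (∑ a, ∑ b, v a * JR D a b * v b) • vecMulVec l l := by
          ext a b
          rw [Matrix.mul_apply, Matrix.smul_apply, vecMulVec_apply, smul_eq_mul]
          have e5 : ∀ c, vecMulVec l (v ᵥ* JR D) a c * vecMulVec v l c b =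
              (l a * l b) * ∑ x, v x * JR D x c * v c := by
            intro c
            rw [vecMulVec_apply, vecMulVec_apply, Matrix.vecMul, dotProduct, ← Finset.sum_mul]
            ring
          rw [Finset.sum_congr rfl fun c _ => e5 c, ← Finset.mul_sum, Finset.sum_comm]
          ring
        rw [e1, Matrix.sub_mul, Matrix.one_mul, Matrix.smul_mul, e2, Matrix.mul_sub, Matrix.mul_one,
          Matrix.mul_smul, Matrix.sub_mul, e3, Matrix.smul_mul, e4]
        simp only [Matrix.sub_apply, Matrix.smul_apply, vecMulVec_apply, smul_eq_mul,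
          Matrix.vecMul, dotProduct]
        ring
      rw [h9, JR_quad]
      have h10 : ∑ a, v a * JR D a j = -(JR D *ᵥ v) j := by
        rw [Matrix.mulVec, dotProduct, ← Finset.sum_neg_distrib]
        apply Finset.sum_congr rfl
        intro a _
        rw [JR_anti D j a]
        ring
      rw [h10]
      ring
    have h11 := hltl 2 f hf hrel 1
    obtain ⟨u, hu⟩ := h11.exists
    exact hu
  -- `v` is determined by `J0 v`
  have hJ : JR D *ᵥ v ≠ 0 := by
    intro h0
    apply hv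
    funext a
    have h1 := congrFun h0 (rv D a)
    rw [JR_mulVec] at h1
    have h2 : rv D (rv D a) = a := by
      apply Fin.ext
      simp only [rv]
      have := a.2
      omega
    rw [h2] at h1
    rcases mul_eq_zero.1 h1 with h3 | h3
    · exact absurd h3 (pow_ne_zero _ (by norm_num))
    · exact h3
  have hJ0 : (JR D *ᵥ v) D.fz = v D.fl := by
    rw [JR_mulVec]
    have h1 : rv D D.fz = D.fl := by
      apply Fin.ext
      simp only [rv, Dat.fz, Dat.fl]
      omega
    rw [h1]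
    have h2 : ((D.fz : Fin D.r) : ℕ) = 0 := rfl
    rw [h2, pow_zero, one_mul]
  have hlj : ∀ j, l D.fz * (JR D *ᵥ v) j = (JR D *ᵥ v) D.fz * l j := by
    intro j
    have := hsym D.fz j
    linarith
  have hvl : v D.fl ≠ 0 := by
    intro h0
    apply hJ
    funext j
    have h1 := hlj j
    rw [hJ0, h0, zero_mul] at h1
    exact (mul_eq_zero.1 h1).resolve_left hl
  refine ⟨hvl, hl, ?_⟩
  have h1 : (JR D *ᵥ v) D.fz * (l ⬝ᵥ v) = 0 := by
    have h2 : (JR D *ᵥ v) D.fz * (l ⬝ᵥ v) = l D.fz * ∑ a, ∑ b, v a * JR D a b * v b := by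
      rw [dotProduct, Finset.mul_sum, Finset.mul_sum]
      apply Finset.sum_congr rfl
      intro a _
      rw [← mul_assoc, ← hlj a, Matrix.mulVec, dotProduct, Finset.mul_sum, Finset.mul_sum,
        Finset.sum_mul]
      apply Finset.sum_congr rfl
      intro b _
      ring
    rw [h2, JR_quad, mul_zero]
  rw [hJ0] at h1
  exact (mul_eq_zero.1 h1).resolve_left hvl

end Pool.Agent.MT100.H94
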